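import Mathlib

set_option autoImplicit false

namespace Pool.Agent.X323.VE

open Finset

/-- two different products of powers of primes of `S0` which are congruent modulo `q ^ m`, with
exponents `≤ E`, `E ^ s0 ≤ q ^ m` -/
theorem units {S0 : Finset ℕ} (hS0 : ∀ p ∈ S0, p.Prime) (hc : 1 ≤ S0.card) {q : ℕ} (hq : q.Prime)
    (m : ℕ) : ∃ (E : ℕ) (e e' : ℕ → ℕ), 1 ≤ E ∧ E ^ S0.card ≤ q ^ m ∧ (∀ p ∈ S0, e p ≤ E) ∧
      (∀ p ∈ S0, e' p ≤ E) ∧ (∏ p ∈ S0, p ^ e p) ≠ (∏ p ∈ S0, p ^ e' p) ∧
      ((∏ p ∈ S0, p ^ e p : ℕ) : ZMod (q ^ m)) = ((∏ p ∈ S0, p ^ e' p : ℕ) : ZMod (q ^ m)) := by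
  classical
  have hqm : 0 < q ^ m := pow_pos hq.pos m
  have : NeZero (q ^ m) := ⟨hqm.ne'⟩
  -- the largest E with E ^ s0 ≤ q ^ m
  obtain ⟨E, hE1, hE2⟩ : ∃ E : ℕ, E ^ S0.card ≤ q ^ m ∧ q ^ m < (E + 1) ^ S0.card := by
    set E := Nat.findGreatest (fun E => E ^ S0.card ≤ q ^ m) (q ^ m) with hE
    refine ⟨E, ?_, ?_⟩
    · have h0 : (0 : ℕ) ^ S0.card ≤ q ^ m := by
        rw [zero_pow (by omega)]; exact Nat.zero_le _
      exact Nat.findGreatest_spec (P := fun E => E ^ S0.card ≤ q ^ m) (Nat.zero_le _) h0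
    · by_contra hcon
      push Not at hcon
      have h1 : E + 1 ≤ q ^ m := le_trans (Nat.le_self_pow (by omega) _) hcon
      have h2 := Nat.le_findGreatest (P := fun E => E ^ S0.card ≤ q ^ m) h1 hcon
      omega
  -- the pigeonhole
  let f : (S0 → Fin (E + 1)) → ZMod (q ^ m) := fun g =>
    ((∏ p : S0, (p : ℕ) ^ (g p : ℕ) : ℕ) : ZMod (q ^ m))
  have hcard : Fintype.card (ZMod (q ^ m)) < Fintype.card (S0 → Fin (E + 1)) := by
    rw [ZMod.card, Fintype.card_fun, Fintype.card_fin, Fintype.card_coe]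
    exact hE2
  obtain ⟨g, g', hne, hgg⟩ := Fintype.exists_ne_map_eq_of_card_lt f hcard
  let ex : (S0 → Fin (E + 1)) → ℕ → ℕ := fun g p => if h : p ∈ S0 then (g ⟨p, h⟩ : ℕ) else 0
  have hprod : ∀ g : S0 → Fin (E + 1),
      ∏ p : S0, (p : ℕ) ^ (g p : ℕ) = ∏ p ∈ S0, p ^ ex g p := by
    intro g
    rw [← Finset.prod_coe_sort S0 (fun p => p ^ ex g p)]
    refine Finset.prod_congr rfl fun p _ => ?_
    simp [ex]
  have hle : ∀ g : S0 → Fin (E + 1), ∀ p ∈ S0, ex g p ≤ E := by
    intro g p hp
    have := (g ⟨p, hp⟩).2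
    simp only [ex, hp, dif_pos]
    omega
  have hE0 : 1 ≤ E := by
    by_contra h
    have h0 : E = 0 := by omega
    rw [h0, zero_add, one_pow] at hE2
    omega
  refine ⟨E, ex g, ex g', hE0, hE1, hle g, hle g', ?_, ?_⟩
  · intro heq
    apply hne
    funext ⟨p, hp⟩
    have hfac : ∀ g : S0 → Fin (E + 1), (∏ r ∈ S0, r ^ ex g r).factorization p = ex g p := by
      intro g
      rw [Nat.factorization_prod (fun r hr => pow_ne_zero _ (hS0 r hr).ne_zero)]
      rw [Finsupp.finsetSum_apply]
      rw [Finset.sum_eq_single p]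
      · rw [Nat.factorization_pow, Finsupp.smul_apply, (hS0 p hp).factorization_self]; simp
      · intro r hr hrp
        rw [Nat.factorization_pow, Finsupp.smul_apply, (hS0 r hr).factorization]
        simp [hrp]
      · intro h; exact absurd hp h
    have h1 : ex g p = ex g' p := by rw [← hfac g, ← hfac g', heq]
    simp only [ex, hp, dif_pos] at h1
    exact Fin.ext h1
  · rw [← hprod g, ← hprod g']
    exact hgg


/-- the part prime to `S` of a divisor of `K s`, `s` a product of powers of primes of `S`, is at most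
`K` -/
theorem prime_part {S : Finset ℕ} (hS : ∀ p ∈ S, p.Prime) {w K s : ℕ} (hw : w ≠ 0) (hK : K ≠ 0)
    (hs : s ≠ 0) (hsS : ∀ p, p.Prime → p ∣ s → p ∈ S) (hdvd : w ∣ K * s) :
    Real.log w ≤ Real.log K + ∑ p ∈ S, (w.factorization p : ℝ) * Real.log p := by
  classical
  have h1 : Real.log w = ∑ p ∈ w.primeFactors, (w.factorization p : ℝ) * Real.log p := by
    conv_lhs => rw [← Nat.prod_factorization_pow_eq_self hw]
    rw [Nat.prod_factorization_eq_prod_primeFactors]
    push_cast
    rw [Real.log_prod (fun p hp => by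
      have := (Nat.prime_of_mem_primeFactors hp).pos
      positivity)]
    exact Finset.sum_congr rfl fun p _ => by rw [Real.log_pow]
  have h2 : Real.log K = ∑ p ∈ K.primeFactors, (K.factorization p : ℝ) * Real.log p := by
    conv_lhs => rw [← Nat.prod_factorization_pow_eq_self hK]
    rw [Nat.prod_factorization_eq_prod_primeFactors]
    push_cast
    rw [Real.log_prod (fun p hp => by
      have := (Nat.prime_of_mem_primeFactors hp).pos
      positivity)]
    exact Finset.sum_congr rfl fun p _ => by rw [Real.log_pow]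
  rw [h1, ← Finset.sum_filter_add_sum_filter_not _ (fun p => p ∈ S)]
  have h3 : ∑ p ∈ w.primeFactors with p ∈ S, (w.factorization p : ℝ) * Real.log p ≤
      ∑ p ∈ S, (w.factorization p : ℝ) * Real.log p := by
    refine Finset.sum_le_sum_of_subset_of_nonneg (fun p hp => (Finset.mem_filter.1 hp).2) ?_
    intro p hp _
    have := (hS p hp).one_lt
    have h : 0 ≤ Real.log p := Real.log_nonneg (by exact_mod_cast this.le)
    positivity
  have h4 : ∑ p ∈ w.primeFactors with ¬ p ∈ S, (w.factorization p : ℝ) * Real.log p ≤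
      Real.log K := by
    rw [h2]
    have hle : ∀ p ∈ w.primeFactors.filter (fun p => ¬ p ∈ S),
        w.factorization p ≤ K.factorization p := by
      intro p hp
      obtain ⟨hp1, hp2⟩ := Finset.mem_filter.1 hp
      have hpp := Nat.prime_of_mem_primeFactors hp1
      have h5 : w.factorization p ≤ (K * s).factorization p :=
        (Nat.factorization_le_iff_dvd hw (mul_ne_zero hK hs)).2 hdvd p
      rw [Nat.factorization_mul hK hs, Finsupp.add_apply] at h5
      have h6 : s.factorization p = 0 :=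
        Nat.factorization_eq_zero_of_not_dvd fun h => hp2 (hsS p hpp h)
      omega
    calc ∑ p ∈ w.primeFactors with ¬ p ∈ S, (w.factorization p : ℝ) * Real.log p
        ≤ ∑ p ∈ w.primeFactors with ¬ p ∈ S, (K.factorization p : ℝ) * Real.log p := by
          refine Finset.sum_le_sum fun p hp => ?_
          have hpp := (Nat.prime_of_mem_primeFactors (Finset.mem_filter.1 hp).1).one_lt
          have h : 0 ≤ Real.log p := Real.log_nonneg (by exact_mod_cast hpp.le)
          exact mul_le_mul_of_nonneg_right (by exact_mod_cast hle p hp) h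
      _ ≤ ∑ p ∈ K.primeFactors, (K.factorization p : ℝ) * Real.log p := by
          refine Finset.sum_le_sum_of_subset_of_nonneg ?_ ?_
          · intro p hp
            have hpp := Nat.prime_of_mem_primeFactors (Finset.mem_filter.1 hp).1
            have h7 := hle p hp
            have h8 : 0 < w.factorization p :=
              hpp.factorization_pos_of_dvd hw (Nat.dvd_of_mem_primeFactors
                (Finset.mem_filter.1 hp).1)
            rw [Nat.mem_primeFactors]
            refine ⟨hpp, ?_, hK⟩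
            by_contra hnd
            rw [Nat.factorization_eq_zero_of_not_dvd hnd] at h7
            omega
          · intro p hp _
            have hpp := (Nat.prime_of_mem_primeFactors hp).one_lt
            have h : 0 ≤ Real.log p := Real.log_nonneg (by exact_mod_cast hpp.le)
            positivity
  linarith

/-- a nonzero polynomial does not vanish at some point of the grid `c j a ^ k b ^ (N - k)` -/
theorem grid {ι : Type} [Fintype ι] (F : MvPolynomial ι ℚ) (hF : F ≠ 0) {a b : ℕ}
    (ha : 0 < a) (hb : 0 < b) (hab : a ≠ b) (c : ι → ℤ) (hc : ∀ i, c i ≠ 0) :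
    ∃ k : ι → ℕ, (∀ i, k i ≤ F.totalDegree) ∧
      MvPolynomial.eval (fun i => (c i : ℚ) * (a : ℚ) ^ (k i) * (b : ℚ) ^ (F.totalDegree - k i)) F
        ≠ 0 := by
  classical
  set N := F.totalDegree with hN
  have haQ : (0 : ℚ) < a := by exact_mod_cast ha
  have hbQ : (0 : ℚ) < b := by exact_mod_cast hb
  have hinj : ∀ i, Set.InjOn (fun k : ℕ => (c i : ℚ) * (a : ℚ) ^ k * (b : ℚ) ^ (N - k))
      (Finset.range (N + 1) : Set ℕ) := by
    have key : ∀ i, ∀ k l : ℕ, l ≤ N → k < l →
        (c i : ℚ) * (a : ℚ) ^ k * (b : ℚ) ^ (N - k) ≠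
          (c i : ℚ) * (a : ℚ) ^ l * (b : ℚ) ^ (N - l) := by
      intro i k l hl hkl h
      have hci : (c i : ℚ) ≠ 0 := by exact_mod_cast hc i
      have e1 : N - k = (N - l) + (l - k) := by omega
      have e2 : l = k + (l - k) := by omega
      rw [e1, pow_add] at h
      have h' : (c i : ℚ) * (a : ℚ) ^ k * ((b : ℚ) ^ (N - l) * (b : ℚ) ^ (l - k)) =
          (c i : ℚ) * ((a : ℚ) ^ k * (a : ℚ) ^ (l - k)) * (b : ℚ) ^ (N - l) := by
        rw [h, ← pow_add, ← e2]
      have hne : (c i : ℚ) * (a : ℚ) ^ k * (b : ℚ) ^ (N - l) ≠ 0 := by positivity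
      have h2 : (b : ℚ) ^ (l - k) = (a : ℚ) ^ (l - k) := by
        apply mul_left_cancel₀ hne
        linear_combination h'
      have h3 : (b : ℚ) = a := (pow_left_inj₀ hbQ.le haQ.le (by omega)).1 h2
      exact hab (by exact_mod_cast h3.symm)
    intro i k hk l hl h
    simp only [Finset.coe_range, Set.mem_Iio] at hk hl
    rcases lt_trichotomy k l with h1 | h1 | h1
    · exact absurd h (key i k l (by omega) h1)
    · exact h1
    · exact absurd h.symm (key i l k (by omega) h1)
  by_contra hcon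
  push Not at hcon
  apply hF
  refine MvPolynomial.eq_zero_of_eval_zero_at_prod_finset F
    (fun i => (Finset.range (N + 1)).image
      (fun k : ℕ => (c i : ℚ) * (a : ℚ) ^ k * (b : ℚ) ^ (N - k))) ?_ ?_
  · intro i
    rw [Finset.card_image_of_injOn (hinj i), Finset.card_range]
    exact Nat.lt_succ_of_le (MvPolynomial.degreeOf_le_totalDegree F i)
  · intro y hy
    have h1 : ∀ i, ∃ k : ℕ, k ≤ N ∧ (c i : ℚ) * (a : ℚ) ^ k * (b : ℚ) ^ (N - k) = y i := by
      intro i
      obtain ⟨k, hk, h⟩ := Finset.mem_image.1 (hy i)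
      exact ⟨k, by rw [Finset.mem_range] at hk; omega, h⟩
    choose k hk hky using h1
    have h2 := hcon k hk
    have h3 : (fun i => (c i : ℚ) * (a : ℚ) ^ (k i) * (b : ℚ) ^ (N - k i)) = y := funext hky
    rw [h3] at h2
    exact h2

end Pool.Agent.X323.VE
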