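import Mathlib
import Pool.Agent.X323.VE.Basic

set_option autoImplicit false

namespace Pool.Agent.X323.VE

open MvPolynomial

/-- linear algebra: the relation between `n + 2` linear forms in general position -/
theorem relation {n : ℕ} (hn : 1 ≤ n) (H : Fin (n + 2) → Fin (n + 1) → ℤ)
    (hH : ∀ j0 : Fin (n + 2), (Matrix.of fun j : Fin (n + 1) => H (j0.succAbove j)).det ≠ 0) :
    ∃ (A : Matrix (Fin (n + 1)) (Fin (n + 1)) ℤ) (c γ : Fin (n + 1) → ℤ), A.det ≠ 0 ∧
      (∀ j, c j ≠ 0) ∧ ∑ j, γ j * c j = 0 ∧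
      (∀ y : Fin (n + 1) → ℤ, ∀ j : Fin (n + 1),
        ∑ i, H j.castSucc i * (A.adjugate.mulVec y) i = A.det * y j) ∧
      (∀ y : Fin (n + 1) → ℤ,
        ∑ i, H (Fin.last (n + 1)) i * (A.adjugate.mulVec y) i = ∑ j, γ j * y j) ∧
      (∀ z : Fin (n + 1) → ℚ, ∃ y : Fin (n + 1) → ℚ,
        (A.adjugate.map (Int.castRingHom ℚ)).mulVec y = z) := by
  classical
  set A : Matrix (Fin (n + 1)) (Fin (n + 1)) ℤ := Matrix.of fun j => H j.castSucc with hA
  have hdet : A.det ≠ 0 := by
    have h := hH (Fin.last (n + 1))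
    simp only [Fin.succAbove_last] at h
    exact h
  set γ : Fin (n + 1) → ℤ := Matrix.vecMul (H (Fin.last (n + 1))) A.adjugate with hγ
  have hrel : Matrix.vecMul γ A = A.det • H (Fin.last (n + 1)) := by
    rw [hγ, Matrix.vecMul_vecMul, Matrix.adjugate_mul, Matrix.vecMul_smul, Matrix.vecMul_one]
  have hγ0 : ∀ j, γ j ≠ 0 := by
    intro j hj
    apply hH j.castSucc
    rw [← Matrix.exists_vecMul_eq_zero_iff]
    -- the coefficients
    let c' : Fin (n + 2) → ℤ := Fin.lastCases (motive := fun _ => ℤ) (A.det) (fun i => - γ i)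
    have hc'l : c' (Fin.last (n + 1)) = A.det := by simp [c']
    have hc's : ∀ i : Fin (n + 1), c' i.castSucc = - γ i := by intro i; simp [c']
    refine ⟨fun k => c' (j.castSucc.succAbove k), ?_, ?_⟩
    · intro h0
      obtain ⟨k, hk⟩ := Fin.exists_succAbove_eq (x := Fin.last (n + 1)) (y := j.castSucc)
        (Fin.castSucc_lt_last j).ne'
      have := congrFun h0 k
      simp only [Pi.zero_apply] at this
      rw [hk, hc'l] at this
      exact hdet this
    · funext i
      have h1 : ∑ l : Fin (n + 2), c' l * H l i = 0 := by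
        rw [Fin.sum_univ_castSucc, hc'l]
        have h2 := congrFun hrel i
        simp only [Matrix.vecMul, dotProduct, Pi.smul_apply, smul_eq_mul] at h2
        have h3 : ∑ l : Fin (n + 1), c' l.castSucc * H l.castSucc i =
            - ∑ l : Fin (n + 1), γ l * A l i := by
          rw [← Finset.sum_neg_distrib]
          refine Finset.sum_congr rfl fun l _ => ?_
          rw [hc's]
          simp [hA]
        rw [h3, h2]
        ring
      rw [Fin.sum_univ_succAbove _ j.castSucc, hc's, hj] at h1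
      simp only [Matrix.vecMul, dotProduct, Pi.zero_apply, Matrix.of_apply]
      linarith
  -- the constants c
  set w : Fin (n + 1) → ℤ := fun j => if j = 0 then - (n : ℤ) else 1 with hw
  have hw0 : ∀ j, w j ≠ 0 := by
    intro j
    simp only [hw]
    split_ifs
    · omega
    · exact one_ne_zero
  have hws : ∑ j, w j = 0 := by
    rw [Fin.sum_univ_succ]
    simp [hw, Fin.succ_ne_zero]
  refine ⟨A, fun j => w j * ∏ i ∈ Finset.univ.erase j, γ i, γ, hdet, ?_, ?_, ?_, ?_, ?_⟩
  · intro j
    exact mul_ne_zero (hw0 j) (Finset.prod_ne_zero_iff.2 fun i _ => hγ0 i)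
  · have h1 : ∀ j, γ j * (w j * ∏ i ∈ Finset.univ.erase j, γ i) = w j * ∏ i, γ i := by
      intro j
      rw [← Finset.mul_prod_erase Finset.univ γ (Finset.mem_univ j)]
      ring
    rw [Finset.sum_congr rfl fun j _ => h1 j, ← Finset.sum_mul, hws, zero_mul]
  · intro y j
    have h1 : A.mulVec (A.adjugate.mulVec y) = A.det • y := by
      rw [Matrix.mulVec_mulVec, Matrix.mul_adjugate, Matrix.smul_mulVec, Matrix.one_mulVec]
    have h2 := congrFun h1 j
    simp only [Pi.smul_apply, smul_eq_mul] at h2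
    rw [← h2]
    rfl
  · intro y
    have h1 : (H (Fin.last (n + 1))) ⬝ᵥ (A.adjugate.mulVec y) = γ ⬝ᵥ y := by
      rw [Matrix.dotProduct_mulVec]
    exact h1
  · intro z
    set A' : Matrix (Fin (n + 1)) (Fin (n + 1)) ℚ := A.map (Int.castRingHom ℚ) with hA'
    have h1 : A.adjugate.map (Int.castRingHom ℚ) = A'.adjugate := by
      have := RingHom.map_adjugate (Int.castRingHom ℚ) A
      rw [RingHom.mapMatrix_apply, RingHom.mapMatrix_apply] at this
      exact this
    have hd' : A'.det ≠ 0 := by
      have : A'.det = (A.det : ℚ) := by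
        have := RingHom.map_det (Int.castRingHom ℚ) A
        rw [RingHom.mapMatrix_apply] at this
        exact this.symm
      rw [this]
      exact_mod_cast hdet
    refine ⟨A'.det⁻¹ • A'.mulVec z, ?_⟩
    rw [h1, Matrix.mulVec_smul, Matrix.mulVec_mulVec, Matrix.adjugate_mul, Matrix.smul_mulVec,
      Matrix.one_mulVec, smul_smul, inv_mul_cancel₀ hd', one_smul]

end Pool.Agent.X323.VE
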